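import Mathlib

/-!
Finite presentations of groups, and the addition of a generator.
-/

set_option autoImplicit false

namespace Pool.Agent.Q33.IP

/-- A finite presentation: the number of the generators `x₀, x₁, …`, and the list of the relators.
The letter `(i, true)` is `xᵢ`, the letter `(i, false)` is its inverse. -/
abbrev Pres : Type := ℕ × List (List (ℕ × Bool))

/-- The relators, together with the generators of the free group on `x₀, x₁, x₂, …` which do not
belong to the presentation. -/
def rels (P : Pres) : Set (FreeGroup ℕ) :=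
  {r | (∃ w ∈ P.2, r = FreeGroup.mk w) ∨ ∃ i, P.1 ≤ i ∧ r = FreeGroup.of i}

/-- the group given by the presentation `P` -/
abbrev Gp (P : Pres) : Type := PresentedGroup (rels P)

/-- The list `P` is a finite presentation: the relators are different words in the generators. -/
def Valid (P : Pres) : Prop := P.2.Nodup ∧ ∀ w ∈ P.2, ∀ a ∈ w, a.1 < P.1

/-- one more generator, which is equal to the word `u` -/
def ext (P : Pres) (u : List (ℕ × Bool)) : Pres := (P.1 + 1, ((P.1, false) :: u) :: P.2)

theorem lift_word (R : Set (FreeGroup ℕ)) (f : ℕ → PresentedGroup R)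
    (w : List (ℕ × Bool)) (h : ∀ a ∈ w, f a.1 = PresentedGroup.of a.1) :
    FreeGroup.lift f (FreeGroup.mk w) = PresentedGroup.mk R (FreeGroup.mk w) := by
  have h1 : (PresentedGroup.mk R : FreeGroup ℕ →* PresentedGroup R) =
      FreeGroup.lift (fun i => PresentedGroup.of i) := by
    ext i
    simp [PresentedGroup.of]
  rw [h1, FreeGroup.lift_mk, FreeGroup.lift_mk]
  congr 1
  refine List.map_congr_left (fun a ha => ?_)
  rw [h a ha]

theorem mk_eq_one {R : Set (FreeGroup ℕ)} {r : FreeGroup ℕ} (h : r ∈ R) :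
    PresentedGroup.mk R r = 1 :=
  (QuotientGroup.eq_one_iff r).2 (Subgroup.subset_normalClosure h)

/-- Adding a generator which is equal to a word does not change the group. -/
theorem ext_iso {P : Pres} (hP : Valid P) {u : List (ℕ × Bool)} (hu : ∀ a ∈ u, a.1 < P.1) :
    Nonempty (Gp (ext P u) ≃* Gp P) := by
  -- the two homomorphisms
  have hF : ∀ r ∈ rels (ext P u), FreeGroup.lift (fun i => if i = P.1 then
      PresentedGroup.mk (rels P) (FreeGroup.mk u) else (PresentedGroup.of i : Gp P)) r = 1 := by
    rintro r (⟨w, hw, rfl⟩ | ⟨i, hi, rfl⟩)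
    · rw [ext, List.mem_cons] at hw
      rcases hw with rfl | hw
      · have e : (FreeGroup.mk ((P.1, false) :: u) : FreeGroup ℕ) =
            (FreeGroup.of P.1)⁻¹ * FreeGroup.mk u := by
          rw [FreeGroup.of, FreeGroup.inv_mk, FreeGroup.mul_mk]
          rfl
        rw [e, map_mul, map_inv, FreeGroup.lift_apply_of, if_pos rfl,
          lift_word _ _ u (fun a ha => if_neg (hu a ha).ne), inv_mul_cancel]
      · rw [lift_word _ _ w (fun a ha => if_neg (hP.2 w hw a ha).ne)]
        exact mk_eq_one (Or.inl ⟨w, hw, rfl⟩)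
    · have hi' : P.1 + 1 ≤ i := hi
      rw [FreeGroup.lift_apply_of, if_neg (by omega)]
      exact mk_eq_one (Or.inr ⟨i, by omega, rfl⟩)
  have hG : ∀ r ∈ rels P, FreeGroup.lift (fun i => if i = P.1 then 1 else
      (PresentedGroup.of i : Gp (ext P u))) r = 1 := by
    rintro r (⟨w, hw, rfl⟩ | ⟨i, hi, rfl⟩)
    · rw [lift_word _ _ w (fun a ha => if_neg (hP.2 w hw a ha).ne)]
      exact mk_eq_one (Or.inl ⟨w, List.mem_cons_of_mem _ hw, rfl⟩)
    · rw [FreeGroup.lift_apply_of]
      by_cases h : i = P.1
      · rw [if_pos h]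
      · rw [if_neg h]
        exact mk_eq_one (Or.inr ⟨i, by
          have : P.1 + 1 ≤ i := by omega
          exact this, rfl⟩)
  -- the new relation
  have hnew : (PresentedGroup.of P.1 : Gp (ext P u)) =
      PresentedGroup.mk (rels (ext P u)) (FreeGroup.mk u) := by
    have h1 : PresentedGroup.mk (rels (ext P u)) (FreeGroup.mk ((P.1, false) :: u)) = 1 :=
      mk_eq_one (Or.inl ⟨_, List.mem_cons_self, rfl⟩)
    have e : (FreeGroup.mk ((P.1, false) :: u) : FreeGroup ℕ) =
        (FreeGroup.of P.1)⁻¹ * FreeGroup.mk u := by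
      rw [FreeGroup.of, FreeGroup.inv_mk, FreeGroup.mul_mk]
      rfl
    rw [e, map_mul, map_inv, inv_mul_eq_one] at h1
    exact h1
  have hmkF : ∀ (w : List (ℕ × Bool)), (∀ a ∈ w, a.1 < P.1) →
      PresentedGroup.toGroup hG (PresentedGroup.mk (rels P) (FreeGroup.mk w)) =
        PresentedGroup.mk (rels (ext P u)) (FreeGroup.mk w) := by
    intro w hw
    rw [← lift_word (rels (ext P u)) (fun i => if i = P.1 then 1 else
      (PresentedGroup.of i : Gp (ext P u))) w (fun a ha => if_neg (hw a ha).ne)]
    rfl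
  refine ⟨MonoidHom.toMulEquiv (PresentedGroup.toGroup hF) (PresentedGroup.toGroup hG) ?_ ?_⟩
  · refine PresentedGroup.ext (fun i => ?_)
    rw [MonoidHom.comp_apply, PresentedGroup.toGroup.of, MonoidHom.id_apply]
    by_cases h : i = P.1
    · rw [if_pos h, hmkF u hu, h, hnew]
    · rw [if_neg h, PresentedGroup.toGroup.of, if_neg h]
  · refine PresentedGroup.ext (fun i => ?_)
    rw [MonoidHom.comp_apply, PresentedGroup.toGroup.of, MonoidHom.id_apply]
    by_cases h : i = P.1
    · rw [if_pos h, map_one]
      exact (mk_eq_one (Or.inr ⟨i, h.ge, rfl⟩)).symm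
    · rw [if_neg h, PresentedGroup.toGroup.of, if_neg h]

theorem valid_ext {P : Pres} (hP : Valid P) {u : List (ℕ × Bool)} (hu : ∀ a ∈ u, a.1 < P.1) :
    Valid (ext P u) := by
  refine ⟨?_, ?_⟩
  · rw [ext, List.nodup_cons]
    refine ⟨fun h => ?_, hP.1⟩
    have := hP.2 _ h _ List.mem_cons_self
    exact lt_irrefl _ this
  · intro w hw a ha
    rw [ext, List.mem_cons] at hw
    show a.1 < P.1 + 1
    rcases hw with rfl | hw
    · rw [List.mem_cons] at ha
      rcases ha with rfl | ha
      · exact Nat.lt_succ_self _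
      · exact (hu a ha).trans (Nat.lt_succ_self _)
    · exact (hP.2 w hw a ha).trans (Nat.lt_succ_self _)

/-- the letters of the first `n` generators -/
def letters (n : ℕ) : List (ℕ × Bool) := (List.range n).flatMap (fun i => [(i, true), (i, false)])

/-- the empty word and the words with two letters -/
def words (n : ℕ) : List (List (ℕ × Bool)) :=
  [] :: (letters n).flatMap (fun a => (letters n).map (fun b => [a, b]))

theorem mem_letters {n : ℕ} {a : ℕ × Bool} : a ∈ letters n ↔ a.1 < n := by
  obtain ⟨i, b⟩ := a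
  simp only [letters, List.mem_flatMap, List.mem_range, List.mem_cons, Prod.mk.injEq,
    List.not_mem_nil, or_false]
  constructor
  · rintro ⟨j, hj, ⟨rfl, -⟩ | ⟨rfl, -⟩⟩ <;> exact hj
  · intro h
    cases b
    · exact ⟨i, h, Or.inr ⟨rfl, rfl⟩⟩
    · exact ⟨i, h, Or.inl ⟨rfl, rfl⟩⟩

theorem length_letters (n : ℕ) : (letters n).length = 2 * n := by
  simp [letters, List.length_flatMap, mul_comm]

theorem letters_nodup (n : ℕ) : (letters n).Nodup := by
  rw [letters, List.nodup_flatMap]
  refine ⟨fun i _ => by simp, ?_⟩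
  refine (List.nodup_range (n := n)).imp ?_
  intro i j hij
  simp only [Function.onFun]
  rw [List.disjoint_left]
  intro a h1 h2
  simp only [List.mem_cons, List.not_mem_nil, or_false] at h1 h2
  apply hij
  rcases h1 with rfl | rfl <;> rcases h2 with h | h <;> exact (Prod.mk.inj h).1

theorem mem_words {n : ℕ} {u : List (ℕ × Bool)} (h : u ∈ words n) :
    (∀ a ∈ u, a.1 < n) ∧ u.length ≤ 2 := by
  rw [words, List.mem_cons, List.mem_flatMap] at h
  rcases h with rfl | ⟨a, ha, h⟩
  · simp
  · rw [List.mem_map] at h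
    obtain ⟨b, hb, rfl⟩ := h
    rw [mem_letters] at ha hb
    refine ⟨fun c hc => ?_, le_of_eq rfl⟩
    simp only [List.mem_cons, List.not_mem_nil, or_false] at hc
    rcases hc with rfl | rfl
    · exact ha
    · exact hb

theorem length_words (n : ℕ) : (words n).length = 4 * n ^ 2 + 1 := by
  rw [words, List.length_cons, List.length_flatMap]
  simp only [List.length_map, length_letters, List.map_const', List.sum_replicate, smul_eq_mul]
  ring

theorem words_nodup (n : ℕ) : (words n).Nodup := by
  rw [words, List.nodup_cons]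
  refine ⟨?_, ?_⟩
  · intro h
    rw [List.mem_flatMap] at h
    obtain ⟨a, -, h⟩ := h
    rw [List.mem_map] at h
    obtain ⟨b, -, h⟩ := h
    exact absurd h (by simp)
  · rw [List.nodup_flatMap]
    refine ⟨fun a _ => ?_, ?_⟩
    · refine (letters_nodup n).map (fun b b' h => ?_)
      simpa using h
    · refine (letters_nodup n).imp ?_
      intro a a' haa
      simp only [Function.onFun]
      rw [List.disjoint_left]
      intro w h1 h2
      rw [List.mem_map] at h1 h2
      obtain ⟨b, -, rfl⟩ := h1
      obtain ⟨b', -, h⟩ := h2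
      simp only [List.cons.injEq] at h
      exact haa h.1.symm

/-- all presentations which arise by adding `m` generators, each one equal to the empty word or to a
word with two letters in the generators before it -/
def pads (P : Pres) : ℕ → List Pres
  | 0 => [P]
  | (m + 1) => (pads P m).flatMap (fun Q => (words Q.1).map (fun u => ext Q u))

/-- the total length of the relators -/
def total (R : List (List (ℕ × Bool))) : ℕ := (R.map List.length).sum

theorem ext_inj {N : ℕ} {Q Q' : Pres} (hQ : Valid Q) (hQ' : Valid Q') (h1 : Q.1 = N)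
    (h1' : Q'.1 = N) {u u' : List (ℕ × Bool)}
    (e : (ext Q u).2.toFinset = (ext Q' u').2.toFinset) :
    u = u' ∧ Q.2.toFinset = Q'.2.toFinset := by
  have hnot : ∀ (Q : Pres) (_ : Valid Q) (_ : Q.1 = N) (w : List (ℕ × Bool)),
      ((N, false) :: w) ∉ Q.2 := by
    intro Q hQ h1 w hw
    have := hQ.2 _ hw _ List.mem_cons_self
    rw [h1] at this
    exact lt_irrefl _ this
  have e1 : (ext Q u).2 = ((N, false) :: u) :: Q.2 := by rw [ext, h1]
  have e2 : (ext Q' u').2 = ((N, false) :: u') :: Q'.2 := by rw [ext, h1']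
  rw [e1, e2, List.toFinset_cons, List.toFinset_cons] at e
  have hu : u = u' := by
    have h2 : ((N, false) :: u) ∈ insert ((N, false) :: u') Q'.2.toFinset := by
      rw [← e]
      exact Finset.mem_insert_self _ _
    rw [Finset.mem_insert, List.mem_toFinset] at h2
    rcases h2 with h2 | h2
    · exact (List.cons.inj h2).2
    · exact absurd h2 (hnot Q' hQ' h1' u)
  refine ⟨hu, ?_⟩
  subst hu
  have h3 : ((N, false) :: u) ∉ Q.2.toFinset := by
    rw [List.mem_toFinset]
    exact hnot Q hQ h1 u
  have h4 : ((N, false) :: u) ∉ Q'.2.toFinset := by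
    rw [List.mem_toFinset]
    exact hnot Q' hQ' h1' u
  rw [← Finset.erase_insert h3, e, Finset.erase_insert h4]

theorem pads_spec {P : Pres} (hP : Valid P) (m : ℕ) :
    (∀ Q ∈ pads P m, Q.1 = P.1 + m ∧ Valid Q ∧ Q.2.length = P.2.length + m ∧
      total Q.2 ≤ total P.2 + 3 * m ∧ Nonempty (Gp Q ≃* Gp P)) ∧
    ((pads P m).map (fun Q => Q.2.toFinset)).Nodup ∧
    (pads P m).length = ∏ i ∈ Finset.range m, (4 * (P.1 + i) ^ 2 + 1) := by
  induction m with
  | zero =>
    refine ⟨?_, ?_, ?_⟩
    · intro Q hQ
      rw [pads, List.mem_singleton] at hQ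
      subst hQ
      exact ⟨rfl, hP, rfl, le_rfl, ⟨MulEquiv.refl _⟩⟩
    · simp [pads]
    · simp [pads]
  | succ m ih =>
    obtain ⟨ih1, ih2, ih3⟩ := ih
    refine ⟨?_, ?_, ?_⟩
    · intro Q hQ
      rw [pads, List.mem_flatMap] at hQ
      obtain ⟨Q', hQ', h⟩ := hQ
      rw [List.mem_map] at h
      obtain ⟨u, hu, rfl⟩ := h
      obtain ⟨a1, a2, a3, a4, ⟨a5⟩⟩ := ih1 Q' hQ'
      obtain ⟨b1, b2⟩ := mem_words hu
      obtain ⟨e⟩ := ext_iso a2 b1
      refine ⟨?_, valid_ext a2 b1, ?_, ?_, ⟨e.trans a5⟩⟩
      · show Q'.1 + 1 = P.1 + (m + 1)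
        omega
      · show (((Q'.1, false) :: u) :: Q'.2).length = _
        rw [List.length_cons, a3]
        omega
      · show total (((Q'.1, false) :: u) :: Q'.2) ≤ _
        rw [total, List.map_cons, List.sum_cons, List.length_cons]
        rw [total] at a4
        omega
    · rw [pads, List.map_flatMap, List.nodup_flatMap]
      constructor
      · intro Q hQ
        obtain ⟨a1, a2, -⟩ := ih1 Q hQ
        rw [List.map_map]
        refine (List.nodup_map_iff_inj_on (words_nodup _)).2 ?_
        intro u _ u' _ e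
        exact (ext_inj a2 a2 rfl rfl e).1
      · have hp : (pads P m).Pairwise (fun Q Q' => Q.2.toFinset ≠ Q'.2.toFinset) :=
          List.pairwise_map.1 ih2
        refine List.Pairwise.imp_of_mem ?_ hp
        intro Q Q' hQ hQ' hne
        simp only [Function.onFun]
        rw [List.disjoint_left]
        intro C h1 h2
        rw [List.map_map, List.mem_map] at h1 h2
        obtain ⟨u, -, e1⟩ := h1
        obtain ⟨u', -, e2⟩ := h2
        exact hne (ext_inj (ih1 Q hQ).2.1 (ih1 Q' hQ').2.1 (ih1 Q hQ).1 (ih1 Q' hQ').1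
          (e1.trans e2.symm)).2
    · rw [pads, List.length_flatMap, Finset.prod_range_succ, ← ih3]
      have h1 : (pads P m).map (fun Q => ((words Q.1).map (fun u => ext Q u)).length) =
          (pads P m).map (fun _ => 4 * (P.1 + m) ^ 2 + 1) := by
        refine List.map_congr_left (fun Q hQ => ?_)
        rw [List.length_map, length_words, (ih1 Q hQ).1]
      rw [h1, List.map_const', List.sum_replicate, smul_eq_mul]

end Pool.Agent.Q33.IP
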