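import Pool.Agent.Q33.IP.Pres
import Pool.Agent.Q33.IP.Maj
import Pool.Agent.Q33.RS4.Find

/-!
The isomorphism problem with few failures.
-/

set_option autoImplicit false

namespace Pool.Agent.Q33.IP

open Filter

theorem letters_prim : Primrec letters := by
  refine Primrec.list_flatMap Primrec.list_range ?_
  exact Primrec.list_cons.comp (Primrec.snd.pair (Primrec.const true))
    (Primrec.list_cons.comp (Primrec.snd.pair (Primrec.const false)) (Primrec.const []))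

theorem words_prim : Primrec words := by
  have h : Primrec (fun n : ℕ =>
      (letters n).flatMap (fun a => (letters n).map (fun b => [a, b]))) := by
    refine Primrec.list_flatMap letters_prim ?_
    refine Primrec.list_map (letters_prim.comp Primrec.fst) ?_
    exact Primrec.list_cons.comp (Primrec.snd.comp Primrec.fst)
      (Primrec.list_cons.comp Primrec.snd (Primrec.const []))
  exact Primrec.list_cons.comp (Primrec.const []) h

theorem ext_prim : Primrec₂ ext := by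
  refine Primrec.pair (Primrec.succ.comp (Primrec.fst.comp Primrec.fst)) ?_
  exact Primrec.list_cons.comp
    (Primrec.list_cons.comp ((Primrec.fst.comp Primrec.fst).pair (Primrec.const false)) Primrec.snd)
    (Primrec.snd.comp Primrec.fst)

theorem pads_prim : Primrec₂ pads := by
  have h : Primrec₂ (fun (_ : Pres × ℕ) (q : ℕ × List Pres) =>
      q.2.flatMap (fun Q => (words Q.1).map (fun u => ext Q u))) := by
    refine Primrec.list_flatMap (Primrec.snd.comp Primrec.snd) ?_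
    refine Primrec.list_map (words_prim.comp (Primrec.fst.comp Primrec.snd)) ?_
    exact ext_prim.comp (Primrec.snd.comp Primrec.fst) Primrec.snd
  refine (Primrec.nat_rec' Primrec.snd
    (Primrec.list_cons.comp Primrec.fst (Primrec.const [])) h).of_eq (fun p => ?_)
  obtain ⟨P, m⟩ := p
  induction m with
  | zero => rfl
  | succ m ih =>
    simp only at ih ⊢
    rw [ih]
    rfl

/-- all pairs of presentations with `m` generators more -/
def votes (p : Pres × Pres) (m : ℕ) : List (Pres × Pres) :=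
  List.product (pads p.1 m) (pads p.2 m)

theorem votes_prim : Primrec₂ votes := by
  have h1 : Primrec (fun q : (Pres × Pres) × ℕ => pads q.1.1 q.2) :=
    pads_prim.comp (Primrec.fst.comp Primrec.fst) Primrec.snd
  have h2 : Primrec (fun q : (Pres × Pres) × ℕ => pads q.1.2 q.2) :=
    pads_prim.comp (Primrec.snd.comp Primrec.fst) Primrec.snd
  refine (Primrec.list_flatMap h1 ?_).of_eq (fun q => rfl)
  refine Primrec.list_map (h2.comp Primrec.fst) ?_
  exact (Primrec.snd.comp Primrec.fst).pair Primrec.snd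

/-- The list `R` gives a presentation with `m` more generators and `m` more relators than `P`, the
total length of the relators being at most `3 m` more, of a group isomorphic to the group of `P`. -/
def Like (P : Pres) (m : ℕ) (R : List (List (ℕ × Bool))) : Prop :=
  Valid (P.1 + m, R) ∧ R.length = P.2.length + m ∧ total R ≤ total P.2 + 3 * m ∧
    Nonempty (Gp (P.1 + m, R) ≃* Gp P)

/-- The set of the pairs of presentations, like `P₁` and `P₂` with `m₁` and `m₂` more generators and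
relators, for which `φ` fails to decide isomorphism: the set of the relators is counted, and failing
means that `φ` does not stop or gives a wrong answer for some order of the relators. -/
def Fails (φ : Pres × Pres →. Bool) (P₁ P₂ : Pres) (m₁ m₂ : ℕ) :
    Set (Finset (List (ℕ × Bool)) × Finset (List (ℕ × Bool))) :=
  {C | ∃ R₁ R₂ : List (List (ℕ × Bool)), Like P₁ m₁ R₁ ∧ Like P₂ m₂ R₂ ∧
    C = (R₁.toFinset, R₂.toFinset) ∧ ¬ ∃ b ∈ φ ((P₁.1 + m₁, R₁), (P₂.1 + m₂, R₂)),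
      (b = true ↔ Nonempty (Gp (P₁.1 + m₁, R₁) ≃* Gp (P₂.1 + m₂, R₂)))}

/-- the weight -/
def weight (P : Pres) (m : ℕ) : ℕ := ∏ i ∈ Finset.range m, (4 * (P.1 + i) ^ 2 + 1)

theorem words_finite (N T : ℕ) :
    {w : List (ℕ × Bool) | (∀ a ∈ w, a.1 < N) ∧ w.length ≤ T}.Finite := by
  have h : {w : List (ℕ × Bool) | (∀ a ∈ w, a.1 < N) ∧ w.length ≤ T} ⊆
      (fun l : List (Fin N × Bool) => l.map (fun a => ((a.1 : ℕ), a.2))) ''
        {l : List (Fin N × Bool) | l.length ≤ T} := by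
    rintro w ⟨h1, h2⟩
    refine ⟨w.attach.map (fun a => (⟨a.1.1, h1 a.1 a.2⟩, a.1.2)), ?_, ?_⟩
    · show (List.map _ _).length ≤ T
      rw [List.length_map, List.length_attach]
      exact h2
    · simp only [List.map_map]
      exact List.attach_map_subtype_val w
  exact ((List.finite_length_le (Fin N × Bool) T).image _).subset h

theorem le_total {R : List (List (ℕ × Bool))} {w : List (ℕ × Bool)} (hw : w ∈ R) :
    w.length ≤ total R := List.single_le_sum (by simp) _ (List.mem_map_of_mem hw)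

theorem like_finite (P : Pres) (m : ℕ) :
    {C : Finset (List (ℕ × Bool)) | ∃ R, Like P m R ∧ C = R.toFinset}.Finite := by
  have hf := words_finite (P.1 + m) (total P.2 + 3 * m)
  refine (hf.toFinset.powerset.finite_toSet).subset ?_
  rintro C ⟨R, ⟨h1, -, h3, -⟩, rfl⟩
  rw [Finset.mem_coe, Finset.mem_powerset]
  intro w hw
  rw [List.mem_toFinset] at hw
  rw [Set.Finite.mem_toFinset]
  exact ⟨h1.2 w hw, (le_total hw).trans h3⟩

theorem fails_finite (φ : Pres × Pres →. Bool) (P₁ P₂ : Pres) (m₁ m₂ : ℕ) :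
    (Fails φ P₁ P₂ m₁ m₂).Finite := by
  refine ((like_finite P₁ m₁).prod (like_finite P₂ m₂)).subset ?_
  rintro C ⟨R₁, R₂, h1, h2, rfl, -⟩
  exact ⟨⟨R₁, h1, rfl⟩, ⟨R₂, h2, rfl⟩⟩

/-- The class of groups is closed under isomorphism. -/
def IsoClosed (𝒢 : (G : Type) → [Group G] → Prop) : Prop :=
  ∀ (G H : Type) [Group G] [Group H], Nonempty (G ≃* H) → 𝒢 G → 𝒢 H

/-- The isomorphism problem for the class `𝒢` with few failures. -/
theorem few (𝒢 : (G : Type) → [Group G] → Prop) (h𝒢 : IsoClosed 𝒢) :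
    (∃ φ : Pres × Pres →. Bool, Partrec φ ∧ ∀ P₁ P₂, Valid P₁ → Valid P₂ → 𝒢 (Gp P₁) →
      𝒢 (Gp P₂) → ∃ b ∈ φ (P₁, P₂), (b = true ↔ Nonempty (Gp P₁ ≃* Gp P₂))) ↔
    ∃ (φ : Pres × Pres →. Bool) (h : Pres × Pres → ℕ), Partrec φ ∧ Computable h ∧
      ∀ P₁ P₂, Valid P₁ → Valid P₂ → 𝒢 (Gp P₁) → 𝒢 (Gp P₂) →
        ∀ m₁ m₂, h (P₁, P₂) ≤ m₁ → h (P₁, P₂) ≤ m₂ →
          2 * (Fails φ P₁ P₂ m₁ m₂).ncard < weight P₁ m₁ * weight P₂ m₂ := by
  have hpos : ∀ P m, 0 < weight P m := fun P m => Finset.prod_pos (fun i _ => by omega)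
  constructor
  · rintro ⟨φ, hφ, h⟩
    refine ⟨φ, fun _ => 0, hφ, Computable.const 0, fun P₁ P₂ hP₁ hP₂ h1 h2 m₁ m₂ _ _ => ?_⟩
    have e : Fails φ P₁ P₂ m₁ m₂ = ∅ := by
      rw [Set.eq_empty_iff_forall_notMem]
      rintro C ⟨R₁, R₂, ⟨a1, -, -, ⟨a4⟩⟩, ⟨b1, -, -, ⟨b4⟩⟩, -, hf⟩
      exact hf (h _ _ a1 b1 (h𝒢 _ _ ⟨a4.symm⟩ h1) (h𝒢 _ _ ⟨b4.symm⟩ h2))
    rw [e, Set.ncard_empty, mul_zero]
    exact Nat.mul_pos (hpos _ _) (hpos _ _)
  · rintro ⟨φ, h, hφ, hh, hw⟩
    have hv : Computable (fun p : Pres × Pres => votes p (h p)) :=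
      votes_prim.to_comp.comp Computable.id hh
    obtain ⟨ψ, hψ, hmaj⟩ := majority hv hφ
    refine ⟨ψ, hψ, fun P₁ P₂ hP₁ hP₂ h1 h2 => ?_⟩
    classical
    refine ⟨decide (Nonempty (Gp P₁ ≃* Gp P₂)), ?_, by simp⟩
    refine hmaj (P₁, P₂) _ (fun p hp => ?_)
    set m := h (P₁, P₂) with hm
    obtain ⟨a1, a2, a3⟩ := pads_spec hP₁ m
    obtain ⟨b1, b2, b3⟩ := pads_spec hP₂ m
    have hmem : ∀ L ∈ votes (P₁, P₂) m, L.1 ∈ pads P₁ m ∧ L.2 ∈ pads P₂ m := by
      rintro ⟨x, y⟩ hL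
      exact List.pair_mem_product.1 hL
    have hlen : (votes (P₁, P₂) m).length = weight P₁ m * weight P₂ m := by
      refine (List.length_product (pads P₁ m) (pads P₂ m)).trans ?_
      rw [a3, b3]
      rfl
    -- distinct members give distinct pairs of sets of relators
    have c1 : ((votes (P₁, P₂) m).map (fun L => (L.1.2.toFinset, L.2.2.toFinset))).Nodup := by
      have hnd : (votes (P₁, P₂) m).Nodup :=
        List.Nodup.product (List.Nodup.of_map _ a2) (List.Nodup.of_map _ b2)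
      refine (List.nodup_map_iff_inj_on hnd).2 ?_
      intro x hx y hy e
      rw [Prod.mk.injEq] at e
      exact Prod.ext (List.inj_on_of_nodup_map a2 (hmem x hx).1 (hmem y hy).1 e.1)
        (List.inj_on_of_nodup_map b2 (hmem x hx).2 (hmem y hy).2 e.2)
    have c2 : (((votes (P₁, P₂) m).filter p).map
        (fun L => (L.1.2.toFinset, L.2.2.toFinset))).Nodup :=
      (List.Sublist.map _ List.filter_sublist).nodup c1
    have c3 : (((((votes (P₁, P₂) m).filter p).map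
        (fun L => (L.1.2.toFinset, L.2.2.toFinset))).toFinset :
        Finset (Finset (List (ℕ × Bool)) × Finset (List (ℕ × Bool)))) :
        Set (Finset (List (ℕ × Bool)) × Finset (List (ℕ × Bool)))) ⊆ Fails φ P₁ P₂ m m := by
      intro C hC
      rw [Finset.mem_coe, List.mem_toFinset, List.mem_map] at hC
      obtain ⟨L, hL, rfl⟩ := hC
      rw [List.mem_filter] at hL
      obtain ⟨m1, m2⟩ := hmem L hL.1
      obtain ⟨x1, x2, x3, x4, ⟨x5⟩⟩ := a1 _ m1
      obtain ⟨y1, y2, y3, y4, ⟨y5⟩⟩ := b1 _ m2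
      have ex : L.1 = (P₁.1 + m, L.1.2) := Prod.ext x1 rfl
      have ey : L.2 = (P₂.1 + m, L.2.2) := Prod.ext y1 rfl
      refine ⟨L.1.2, L.2.2, ⟨ex ▸ x2, x3, x4, ⟨?_⟩⟩, ⟨ey ▸ y2, y3, y4, ⟨?_⟩⟩, rfl, ?_⟩
      · rw [← ex]
        exact x5
      · rw [← ey]
        exact y5
      · rw [← ex, ← ey]
        rintro ⟨b, hb, hb'⟩
        refine hp L hL.1 hL.2 ?_
        have hiff : Nonempty (Gp L.1 ≃* Gp L.2) ↔ Nonempty (Gp P₁ ≃* Gp P₂) :=
          ⟨fun ⟨g⟩ => ⟨(x5.symm.trans g).trans y5⟩, fun ⟨g⟩ => ⟨(x5.trans g).trans y5.symm⟩⟩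
        rw [hiff] at hb'
        have e : decide (Nonempty (Gp P₁ ≃* Gp P₂)) = b := by
          by_cases hb2 : Nonempty (Gp P₁ ≃* Gp P₂)
          · rw [hb'.2 hb2]
            simpa using hb2
          · have : b = false := by
              by_contra h3
              exact hb2 (hb'.1 (by simpa using h3))
            rw [this]
            simpa using hb2
        rw [e]
        exact hb
    have c4 := Set.ncard_le_ncard c3 (fails_finite φ P₁ P₂ m m)
    rw [Set.ncard_coe_finset, List.toFinset_card_of_nodup c2, List.length_map] at c4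
    have c5 := hw P₁ P₂ hP₁ hP₂ h1 h2 m m le_rfl le_rfl
    show 2 * ((votes (P₁, P₂) m).filter p).length < (votes (P₁, P₂) m).length
    rw [hlen]
    omega

/-- The weight grows faster than every exponential function, uniformly. -/
theorem growth (c : ℕ) : ∃ A : ℕ, ∀ P m, A ≤ m → c ^ m < weight P m := by
  obtain ⟨A, hA⟩ := eventually_atTop.1 (Nat.eventually_pow_lt_factorial_sub c 0)
  refine ⟨max A 1, fun P m hm => ?_⟩
  have h1 : m.factorial ≤ weight P m := by
    rw [weight, ← Finset.prod_range_add_one_eq_factorial]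
    refine Finset.prod_le_prod' (fun i _ => ?_)
    nlinarith [Nat.zero_le P.1, Nat.zero_le i, sq_nonneg (P.1 + i), Nat.le_self_pow (n := 2)
      (by norm_num) (P.1 + i)]
  have h2 := hA m (le_trans (le_max_left _ _) hm)
  rw [Nat.sub_zero] at h2
  exact lt_of_lt_of_le h2 h1

/-- at most exponentially many failures -/
theorem few_exp (𝒢 : (G : Type) → [Group G] → Prop) (h𝒢 : IsoClosed 𝒢) :
    (∃ φ : Pres × Pres →. Bool, Partrec φ ∧ ∀ P₁ P₂, Valid P₁ → Valid P₂ → 𝒢 (Gp P₁) →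
      𝒢 (Gp P₂) → ∃ b ∈ φ (P₁, P₂), (b = true ↔ Nonempty (Gp P₁ ≃* Gp P₂))) ↔
    ∃ (φ : Pres × Pres →. Bool) (h : Pres × Pres → ℕ) (c : ℕ), Partrec φ ∧ Computable h ∧
      ∀ P₁ P₂, Valid P₁ → Valid P₂ → 𝒢 (Gp P₁) → 𝒢 (Gp P₂) →
        ∀ m₁ m₂, h (P₁, P₂) ≤ m₁ → h (P₁, P₂) ≤ m₂ →
          (Fails φ P₁ P₂ m₁ m₂).ncard ≤ c ^ (m₁ + m₂) := by
  constructor
  · rintro ⟨φ, hφ, h⟩
    refine ⟨φ, fun _ => 0, 1, hφ, Computable.const 0,
      fun P₁ P₂ hP₁ hP₂ h1 h2 m₁ m₂ _ _ => ?_⟩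
    have e : Fails φ P₁ P₂ m₁ m₂ = ∅ := by
      rw [Set.eq_empty_iff_forall_notMem]
      rintro C ⟨R₁, R₂, ⟨a1, -, -, ⟨a4⟩⟩, ⟨b1, -, -, ⟨b4⟩⟩, -, hf⟩
      exact hf (h _ _ a1 b1 (h𝒢 _ _ ⟨a4.symm⟩ h1) (h𝒢 _ _ ⟨b4.symm⟩ h2))
    rw [e, Set.ncard_empty]
    exact Nat.zero_le _
  · rintro ⟨φ, h, c, hφ, hh, hw⟩
    obtain ⟨A, hA⟩ := growth (2 * c)
    refine (few 𝒢 h𝒢).2 ⟨φ, fun p => max (h p) (max A 1), hφ, ?_, ?_⟩
    · exact (Primrec.nat_max.to_comp).comp hh (Computable.const _)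
    · intro P₁ P₂ hP₁ hP₂ h1 h2 m₁ m₂ hm₁ hm₂
      have l1 : h (P₁, P₂) ≤ m₁ := le_trans (le_max_left _ _) hm₁
      have l2 : h (P₁, P₂) ≤ m₂ := le_trans (le_max_left _ _) hm₂
      have k1 : A ≤ m₁ := le_trans (le_trans (le_max_left _ _) (le_max_right _ _)) hm₁
      have k2 : A ≤ m₂ := le_trans (le_trans (le_max_left _ _) (le_max_right _ _)) hm₂
      have k3 : 1 ≤ m₁ := le_trans (le_trans (le_max_right _ _) (le_max_right _ _)) hm₁
      have g1 := hw P₁ P₂ hP₁ hP₂ h1 h2 m₁ m₂ l1 l2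
      have g2 : 2 ≤ 2 ^ (m₁ + m₂) := by
        calc 2 = 2 ^ 1 := rfl
          _ ≤ 2 ^ (m₁ + m₂) := Nat.pow_le_pow_right (by omega) (by omega)
      calc 2 * (Fails φ P₁ P₂ m₁ m₂).ncard ≤ 2 ^ (m₁ + m₂) * c ^ (m₁ + m₂) :=
            Nat.mul_le_mul g2 g1
        _ = (2 * c) ^ m₁ * (2 * c) ^ m₂ := by rw [← mul_pow, pow_add]
        _ < weight P₁ m₁ * weight P₂ m₂ :=
            Nat.mul_lt_mul'' (hA P₁ m₁ k1) (hA P₂ m₂ k2)

end Pool.Agent.Q33.IP
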